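import Mathlib

/-! Project EO (helper70), part SG: the sign of a permutation of `r × ZMod u` (core, over Mathlib). -/

set_option autoImplicit false
namespace Pool.Agent.N137.EO.Core

def St_sg : Prop :=
  ∀ (r u : ℕ), Odd r → u % 4 = 3 → ∀ [NeZero u] (π : Equiv.Perm (Fin r)) (c : Fin r → ZMod u)
    (θ : ℤˣ) (σ : Equiv.Perm (Fin r × ZMod u)),
    (∀ i z, σ (i, z) = (π i, c i + (((θ : ℤˣ) : ℤ) : ZMod u) * z)) →
    Equiv.Perm.sign σ = Equiv.Perm.sign π * θ

theorem units_pow_odd (x : ℤˣ) (n : ℕ) (hn : Odd n) : x ^ n = x := by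
  obtain ⟨k, rfl⟩ := hn
  rw [pow_succ, pow_mul, Int.units_sq, one_pow, one_mul]

theorem sign_add {u : ℕ} [NeZero u] (hu : Odd u) (c : ZMod u) :
    Equiv.Perm.sign (Equiv.addLeft c : Equiv.Perm (ZMod u)) = 1 := by
  have h1 : (Equiv.addLeft c : Equiv.Perm (ZMod u)) ^ u = 1 := by
    ext1 z
    have : ∀ n : ℕ, ((Equiv.addLeft c : Equiv.Perm (ZMod u)) ^ n) z = n * c + z := by
      intro n
      induction n with
      | zero => simp
      | succ n ih =>
        rw [pow_succ', Equiv.Perm.mul_apply, ih, Equiv.coe_addLeft]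
        push_cast
        ring
    rw [this]
    simp
  have h2 := congrArg Equiv.Perm.sign h1
  rw [map_pow, map_one, units_pow_odd _ _ hu] at h2
  exact h2

theorem sign_neg {u : ℕ} [NeZero u] (hu : u % 4 = 3) :
    Equiv.Perm.sign (Equiv.neg (ZMod u) : Equiv.Perm (ZMod u)) = -1 := by
  set f : Equiv.Perm (ZMod u) := Equiv.neg (ZMod u) with hf
  have hodd : ∀ z : ZMod u, -z = z ↔ z = 0 := by
    intro z
    rw [ZMod.neg_eq_self_iff]
    constructor
    · rintro (h | h)
      · exact h
      · omega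
    · exact fun h => Or.inl h
  have hsupp : f.support = Finset.univ.erase 0 := by
    ext z
    rw [Equiv.Perm.mem_support, hf, Equiv.neg_apply]
    simp [hodd]
  have hcard : f.support.card = u - 1 := by
    rw [hsupp, Finset.card_erase_of_mem (Finset.mem_univ _), Finset.card_univ, ZMod.card]
  have hsq : f ^ 2 = 1 := by
    ext1 z
    rw [sq, Equiv.Perm.mul_apply, hf]
    simp
  have hne : f ≠ 1 := by
    intro h
    rw [h, Equiv.Perm.support_one, Finset.card_empty] at hcard
    omega
  have hord : orderOf f = 2 := orderOf_eq_prime hsq hne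
  obtain ⟨n, hn⟩ := Equiv.Perm.cycleType_prime_order (σ := f) (by rw [hord]; exact Nat.prime_two)
  rw [hord] at hn
  have hsum := Equiv.Perm.sum_cycleType f
  rw [hn, hcard, Multiset.sum_replicate, smul_eq_mul] at hsum
  rw [Equiv.Perm.sign_of_cycleType, hn, Multiset.sum_replicate, Multiset.card_replicate,
    smul_eq_mul]
  have : Odd ((n + 1) * 2 + (n + 1)) := by
    rw [Nat.odd_iff]
    omega
  exact this.neg_one_pow

theorem t_sg : St_sg := by
  intro r u hr hu _ π c θ σ h
  have hu' : Odd u := by rw [Nat.odd_iff]; omega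
  let af : Fin r → Equiv.Perm (ZMod u) := fun i =>
    if θ = 1 then Equiv.addLeft (c i) else (Equiv.neg (ZMod u)).trans (Equiv.addLeft (c i))
  have haf : ∀ i z, af i z = c i + (((θ : ℤˣ) : ℤ) : ZMod u) * z := by
    intro i z
    rcases Int.units_eq_one_or θ with h1 | h1
    · simp [af, h1]
    · have : (-1 : ℤˣ) ≠ 1 := by decide
      simp [af, h1, this]
  have hs : ∀ i, Equiv.Perm.sign (af i) = θ := by
    intro i
    rcases Int.units_eq_one_or θ with h1 | h1
    · simp only [af, h1, if_true]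
      exact sign_add hu' _
    · have h2 : (-1 : ℤˣ) ≠ 1 := by decide
      simp only [af, h1, if_neg h2]
      rw [Equiv.Perm.sign_trans, sign_add hu', sign_neg hu]
      simp
  have hσ : σ = (Equiv.prodCongrLeft fun _ : ZMod u => π) * (Equiv.prodCongrRight af) := by
    ext1 ⟨i, z⟩
    rw [h, Equiv.Perm.mul_apply, Equiv.prodCongrRight_apply, Equiv.prodCongrLeft_apply, haf]
  rw [hσ, map_mul, Equiv.Perm.sign_prodCongrLeft, Equiv.Perm.sign_prodCongrRight]
  simp only [hs, Finset.prod_const, Finset.card_univ, ZMod.card, Fintype.card_fin]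
  rw [units_pow_odd _ _ hu', units_pow_odd _ _ hr]

end Pool.Agent.N137.EO.Core
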