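import Pool.Agent.N70.EO.Stm
import Pool.Agent.N137.EO.SGCore

/-! Project EO (helper70), part SG: the sign of a permutation of `r × ZMod u`. -/

set_option autoImplicit false

namespace Pool.Agent.N137.EO

theorem t_sg : Pool.Agent.N70.EO.St_sg := Pool.Agent.N137.EO.Core.t_sg

end Pool.Agent.N137.EO
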